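import Pool.Agent.W337.FlatFour

set_option autoImplicit false

open Set Filter Topology Manifold

namespace Pool.Agent.W337

/-- the real function attached to a permutation of the unit interval -/
noncomputable def rf (P : Equiv.Perm (Icc (0 : ℝ) 1)) (y : ℝ) : ℝ :=
  (P (projIcc 0 1 zero_le_one y) : ℝ)

lemma rf_of_mem (P : Equiv.Perm (Icc (0 : ℝ) 1)) {y : ℝ} (hy : y ∈ Icc (0 : ℝ) 1) :
    rf P y = (P ⟨y, hy⟩ : ℝ) := by
  unfold rf
  rw [projIcc_of_mem _ hy]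

lemma rf_coe (P : Equiv.Perm (Icc (0 : ℝ) 1)) (x : Icc (0 : ℝ) 1) : rf P x = (P x : ℝ) :=
  rf_of_mem P x.2

lemma rf_mem (P : Equiv.Perm (Icc (0 : ℝ) 1)) (y : ℝ) : rf P y ∈ Icc (0 : ℝ) 1 :=
  (P _).2

lemma rf_mul (P Q : Equiv.Perm (Icc (0 : ℝ) 1)) (y : ℝ) : rf (P * Q) y = rf P (rf Q y) := by
  have : rf Q y = ((Q (projIcc 0 1 zero_le_one y)) : ℝ) := rfl
  rw [this, rf_coe]
  rfl

lemma rf_one {y : ℝ} (hy : y ∈ Icc (0 : ℝ) 1) : rf 1 y = y := by
  rw [rf_of_mem 1 hy]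
  rfl

section

variable {P : Equiv.Perm (Icc (0 : ℝ) 1)}

lemma rf_contDiffOn (h : ContMDiff (𝓡∂ 1) (𝓡∂ 1) 1 P) : ContDiffOn ℝ 1 (rf P) (Icc 0 1) := by
  rw [← contMDiffOn_iff_contDiffOn]
  have h1 := contMDiffOn_projIcc (x := (0:ℝ)) (y := 1) (n := 1)
  have h2 : ContMDiff (𝓡∂ 1) 𝓘(ℝ, ℝ) 1 (fun z : Icc (0:ℝ) 1 => (z : ℝ)) := contMDiff_subtypeVal_Icc
  exact (h2.comp h).comp_contMDiffOn h1

lemma rf_injOn (P : Equiv.Perm (Icc (0 : ℝ) 1)) : InjOn (rf P) (Icc 0 1) := by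
  intro x hx y hy h
  rw [rf_of_mem P hx, rf_of_mem P hy] at h
  have := P.injective (Subtype.ext h)
  exact congrArg Subtype.val this

lemma rf_surj (P : Equiv.Perm (Icc (0 : ℝ) 1)) {z : ℝ} (hz : z ∈ Icc (0:ℝ) 1) :
    ∃ y ∈ Icc (0:ℝ) 1, rf P y = z := by
  refine ⟨P.symm ⟨z, hz⟩, (P.symm ⟨z, hz⟩).2, ?_⟩
  rw [rf_coe, Equiv.apply_symm_apply]

lemma rf_cases (h : ContMDiff (𝓡∂ 1) (𝓡∂ 1) 1 P) :
    (StrictMonoOn (rf P) (Icc 0 1) ∧ rf P 0 = 0 ∧ rf P 1 = 1) ∨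
    (StrictAntiOn (rf P) (Icc 0 1) ∧ rf P 0 = 1 ∧ rf P 1 = 0) := by
  have m0 : (0:ℝ) ∈ Icc (0:ℝ) 1 := by simp
  have m1 : (1:ℝ) ∈ Icc (0:ℝ) 1 := by simp
  rcases ContinuousOn.strictMonoOn_of_injOn_Icc' zero_le_one (rf_contDiffOn h).continuousOn
    (rf_injOn P) with hm | hm
  · left
    refine ⟨hm, ?_, ?_⟩
    · obtain ⟨y, hy, hy'⟩ := rf_surj P m0
      have := hm.monotoneOn m0 hy hy.1
      have h2 := (rf_mem P 0).1
      linarith
    · obtain ⟨y, hy, hy'⟩ := rf_surj P m1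
      have := hm.monotoneOn hy m1 hy.2
      have h2 := (rf_mem P 1).2
      linarith
  · right
    refine ⟨hm, ?_, ?_⟩
    · obtain ⟨y, hy, hy'⟩ := rf_surj P m1
      have := hm.antitoneOn m0 hy hy.1
      have h2 := (rf_mem P 0).2
      linarith
    · obtain ⟨y, hy, hy'⟩ := rf_surj P m0
      have := hm.antitoneOn hy m1 hy.2
      have h2 := (rf_mem P 1).1
      linarith

lemma rf_maps (h : ContMDiff (𝓡∂ 1) (𝓡∂ 1) 1 P) : ∀ y ∈ Ioo (0:ℝ) 1, rf P y ∈ Ioo (0:ℝ) 1 := by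
  intro y hy
  have m0 : (0:ℝ) ∈ Icc (0:ℝ) 1 := by simp
  have m1 : (1:ℝ) ∈ Icc (0:ℝ) 1 := by simp
  have my : y ∈ Icc (0:ℝ) 1 := Ioo_subset_Icc_self hy
  rcases rf_cases h with ⟨hm, h0, h1⟩ | ⟨hm, h0, h1⟩
  · have a := hm m0 my hy.1
    have b := hm my m1 hy.2
    constructor <;> linarith
  · have a := hm m0 my hy.1
    have b := hm my m1 hy.2
    constructor <;> linarith

lemma rf_good (h : ContMDiff (𝓡∂ 1) (𝓡∂ 1) 1 P) (h' : ContMDiff (𝓡∂ 1) (𝓡∂ 1) 1 ⇑(P⁻¹)) :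
    Good (rf P) (derivWithin (rf P) (Icc 0 1)) := by
  have hc := rf_contDiffOn h
  have hc' := rf_contDiffOn h'
  have hu : UniqueDiffOn ℝ (Icc (0:ℝ) 1) := uniqueDiffOn_Icc zero_lt_one
  have hd : ∀ y ∈ Icc (0:ℝ) 1, HasDerivWithinAt (rf P) (derivWithin (rf P) (Icc 0 1) y) (Icc 0 1) y :=
    fun y hy => ((hc.differentiableOn one_ne_zero) y hy).hasDerivWithinAt
  have hd' : ∀ y ∈ Icc (0:ℝ) 1,
      HasDerivWithinAt (rf P⁻¹) (derivWithin (rf P⁻¹) (Icc 0 1) y) (Icc 0 1) y :=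
    fun y hy => ((hc'.differentiableOn one_ne_zero) y hy).hasDerivWithinAt
  have hne : ∀ y ∈ Icc (0:ℝ) 1, derivWithin (rf P) (Icc 0 1) y ≠ 0 := by
    intro y hy h0
    have a := hd y hy
    have b := hd' (rf P y) (rf_mem P y)
    have c := b.comp y a (fun z _ => rf_mem P z)
    have e : ∀ z ∈ Icc (0:ℝ) 1, (rf P⁻¹ ∘ rf P) z = z := by
      intro z hz
      simp only [Function.comp]
      rw [← rf_mul, inv_mul_cancel, rf_one hz]
    have d : HasDerivWithinAt (rf P⁻¹ ∘ rf P) 1 (Icc 0 1) y :=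
      (hasDerivWithinAt_id y _).congr e (e y hy)
    have := (hu y hy).eq_deriv _ c d
    rw [h0, mul_zero] at this
    exact zero_ne_one this
  exact
    { maps := rf_maps h
      der := hd
      cont := hc.continuousOn_derivWithin hu le_rfl
      ne0 := hne 0 (by simp)
      ne1 := hne 1 (by simp) }

lemma ext_tau_contMDiff (h : ContMDiff (𝓡∂ 1) (𝓡∂ 1) 1 P)
    (h' : ContMDiff (𝓡∂ 1) (𝓡∂ 1) 1 ⇑(P⁻¹)) :
    ContMDiff (𝓡∂ 1) (𝓡∂ 1) 1 (ext (tau (rf P))) := by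
  have g := rf_good h h'
  rcases rf_cases h with ⟨_, h0, h1⟩ | ⟨_, h0, h1⟩
  · obtain ⟨a, b⟩ := g.mono_lims h0 h1
    exact ext_contMDiff g.hasDerivAt g.continuous_tau' a b one_ne_zero
  · obtain ⟨a, b⟩ := g.anti_lims h0 h1
    exact ext_contMDiff g.hasDerivAt g.continuous_tau' a b (by norm_num)

lemma tau_mul {Q : Equiv.Perm (Icc (0 : ℝ) 1)}
    (hQ : ContMDiff (𝓡∂ 1) (𝓡∂ 1) 1 Q) (u : ℝ) :
    tau (rf (P * Q)) u = tau (rf P) (tau (rf Q) u) := by
  unfold tau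
  rw [sigmoid_lgt (rf_maps hQ _ (sigmoid_mem u)), rf_mul]

lemma tau_one (u : ℝ) : tau (rf 1) u = u := by
  unfold tau
  rw [rf_one (Ioo_subset_Icc_self (sigmoid_mem u)), lgt_sigmoid]

end

/-- The action on the circle. -/
theorem circle_action {G : Type} [Group G] (ρ : G →* Equiv.Perm (Icc (0 : ℝ) 1))
    (hinj : Function.Injective ρ) (hs : ∀ g : G, ContMDiff (𝓡∂ 1) (𝓡∂ 1) 1 (ρ g)) :
    ∃ ρ' : G →* Equiv.Perm Circ, Function.Injective ρ' ∧
      ∀ g : G, ContMDiff (𝓡∂ 1) (𝓡∂ 1) 1 (ρ' g) := by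
  have hcomp : ∀ g g' : G, ∀ p : Circ,
      ext (tau (rf (ρ g))) (ext (tau (rf (ρ g'))) p) = ext (tau (rf (ρ (g * g')))) p := by
    intro g g' p
    rw [ext_comp]
    apply ext_congr
    intro u
    rw [map_mul, tau_mul (hs g')]
    rfl
  have hone : ∀ p : Circ, ext (tau (rf (ρ 1))) p = p := by
    intro p
    rw [map_one]
    rw [ext_congr (S := id) tau_one, ext_id]
  let A : G →* Equiv.Perm Circ :=
    { toFun := fun g =>
        { toFun := ext (tau (rf (ρ g)))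
          invFun := ext (tau (rf (ρ g⁻¹)))
          left_inv := fun p => by rw [hcomp, inv_mul_cancel, hone]
          right_inv := fun p => by rw [hcomp, mul_inv_cancel, hone] }
      map_one' := by
        ext p
        exact hone p
      map_mul' := fun g g' => by
        ext p
        exact (hcomp g g' p).symm }
  refine ⟨A, ?_, ?_⟩
  · rw [injective_iff_map_eq_one]
    intro g hg
    apply hinj
    rw [map_one]
    have h1 : ∀ u, tau (rf (ρ g)) u = u := by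
      intro u
      have h2 : ext (tau (rf (ρ g))) (cc u) = cc u := by
        have := congrArg (fun e : Equiv.Perm Circ => e (cc u)) hg
        exact this
      rw [ext_cc] at h2
      exact cc_inj h2
    have h3 : ∀ y ∈ Ioo (0:ℝ) 1, rf (ρ g) y = y := by
      intro y hy
      have h4 := h1 (lgt y)
      unfold tau at h4
      rw [sigmoid_lgt hy] at h4
      have h5 := sigmoid_lgt (rf_maps (hs g) y hy)
      rw [h4, sigmoid_lgt hy] at h5
      exact h5.symm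
    have h6 : rf (ρ g) 0 = 0 ∧ rf (ρ g) 1 = 1 := by
      rcases rf_cases (hs g) with ⟨_, h0, h1⟩ | ⟨hm, h0, h1⟩
      · exact ⟨h0, h1⟩
      · exfalso
        have := hm (show (1/3 : ℝ) ∈ Icc (0:ℝ) 1 by norm_num)
          (show (2/3 : ℝ) ∈ Icc (0:ℝ) 1 by norm_num) (by norm_num)
        rw [h3 (1/3) (by norm_num), h3 (2/3) (by norm_num)] at this
        norm_num at this
    ext x
    rw [← rf_coe]
    rcases eq_endpoints_or_mem_Ioo_of_mem_Icc x.2 with h | h | h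
    · rw [h, h6.1]
      exact h.symm
    · rw [h, h6.2]
      exact h.symm
    · rw [h3 _ h]
      rfl
  · intro g
    have h' := hs g⁻¹
    rw [map_inv] at h'
    exact ext_tau_contMDiff (hs g) h'

/-- the interval is not homeomorphic to the circle -/
theorem no_homeo (h : Icc (0:ℝ) 1 ≃ₜ Circ) : False := by
  have hhalf : (1/2 : ℝ) ∈ Icc (0:ℝ) 1 := by norm_num
  set x : Icc (0:ℝ) 1 := ⟨1/2, hhalf⟩ with hx
  obtain ⟨t, ht⟩ : ∃ t, pr t = h x := ⟨rep (h x), pr_rep _⟩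
  have c1 : IsPreconnected ({h x}ᶜ : Set Circ) := by
    have : ({h x}ᶜ : Set Circ) = pr '' Ioo t (t + Real.pi) := by
      have := (AddCircle.openPartialHomeomorphCoe Real.pi t).image_source_eq_target
      rw [← ht]
      exact this.symm
    rw [this]
    exact isPreconnected_Ioo.image _ continuous_pr.continuousOn
  have c2 : IsPreconnected ({x}ᶜ : Set (Icc (0:ℝ) 1)) := by
    have := c1.image h.symm h.symm.continuous.continuousOn
    have e : h.symm '' ({h x}ᶜ : Set Circ) = {x}ᶜ := by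
      rw [h.symm.image_compl]
      simp
    rwa [e] at this
  have c3 : IsPreconnected (Subtype.val '' ({x}ᶜ : Set (Icc (0:ℝ) 1))) :=
    c2.image _ continuous_subtype_val.continuousOn
  have o := c3.ordConnected
  have a0 : (0:ℝ) ∈ Subtype.val '' ({x}ᶜ : Set (Icc (0:ℝ) 1)) := by
    refine ⟨⟨0, by simp⟩, ?_, rfl⟩
    intro h
    have := congrArg Subtype.val (h : (⟨0, _⟩ : Icc (0:ℝ) 1) = x)
    norm_num [hx] at this
  have a1 : (1:ℝ) ∈ Subtype.val '' ({x}ᶜ : Set (Icc (0:ℝ) 1)) := by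
    refine ⟨⟨1, by simp⟩, ?_, rfl⟩
    intro h
    have := congrArg Subtype.val (h : (⟨1, _⟩ : Icc (0:ℝ) 1) = x)
    norm_num [hx] at this
  have := o.out a0 a1 hhalf
  obtain ⟨y, hy, hy'⟩ := this
  exact hy (Subtype.ext hy')

end Pool.Agent.W337
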