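import Mathlib

set_option autoImplicit false

open Set Filter Topology Manifold

namespace Pool.Agent.W337

instance factPiPos : Fact (0 < Real.pi) := ⟨Real.pi_pos⟩

/-- the circle of length `π` -/
def Circ : Type := AddCircle Real.pi

noncomputable instance : AddCommGroup Circ := inferInstanceAs (AddCommGroup (AddCircle Real.pi))
instance : TopologicalSpace Circ := inferInstanceAs (TopologicalSpace (AddCircle Real.pi))
instance : T2Space Circ := inferInstanceAs (T2Space (AddCircle Real.pi))
instance : CompactSpace Circ := inferInstanceAs (CompactSpace (AddCircle Real.pi))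
instance : ConnectedSpace Circ := by
  have : ConnectedSpace (AddCircle Real.pi) := by infer_instance
  exact this

/-- the projection -/
noncomputable def pr (t : ℝ) : Circ := (t : AddCircle Real.pi)

/-- embedding of the line as the open half line -/
noncomputable def Jmap : OpenPartialHomeomorph ℝ (EuclideanHalfSpace 1) where
  toFun y := ⟨WithLp.toLp 2 (fun _ => Real.exp y), (Real.exp_pos y).le⟩
  invFun z := Real.log (z.1 0)
  source := univ
  target := {z | 0 < z.1 0}
  map_source' y _ := Real.exp_pos y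
  map_target' _ _ := mem_univ _
  left_inv' y _ := by simp
  right_inv' z hz := by
    ext i
    rw [Subsingleton.elim i 0]
    simp only
    exact Real.exp_log hz
  open_source := isOpen_univ
  open_target := by
    have : Continuous (fun z : EuclideanHalfSpace 1 => z.1 0) := by
      exact (PiLp.continuous_apply 2 _ 0).comp continuous_subtype_val
    exact isOpen_lt continuous_const this
  continuousOn_toFun := by
    apply Continuous.continuousOn
    apply Continuous.subtype_mk
    exact (PiLp.continuous_toLp 2 _).comp (continuous_pi fun _ => Real.continuous_exp)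
  continuousOn_invFun := by
    intro z hz
    have : Continuous (fun z : EuclideanHalfSpace 1 => z.1 0) := by
      exact (PiLp.continuous_apply 2 _ 0).comp continuous_subtype_val
    have hz' : z.1 0 ≠ 0 := (ne_of_gt hz)
    exact (this.continuousAt.log hz').continuousWithinAt

/-- section of `pr` over the complement of a point -/
noncomputable def sec (a : ℝ) : OpenPartialHomeomorph Circ ℝ :=
  (AddCircle.openPartialHomeomorphCoe Real.pi a).symm

/-- the charts -/
noncomputable def ch (a : ℝ) : OpenPartialHomeomorph Circ (EuclideanHalfSpace 1) :=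
  (sec a).trans Jmap

lemma pr_add_int (t : ℝ) (m : ℤ) : pr (t + m * Real.pi) = pr t := by
  unfold pr
  rw [AddCircle.coe_add, (AddCircle.coe_eq_zero_iff (p := Real.pi) (x := m * Real.pi)).2 ⟨m, by simp⟩,
    add_zero]

lemma pr_eq_iff {s t : ℝ} : pr s = pr t ↔ ∃ m : ℤ, s = t + m * Real.pi := by
  constructor
  · intro h
    have h' : ((s - t : ℝ) : AddCircle Real.pi) = 0 := by
      rw [AddCircle.coe_sub]
      exact sub_eq_zero.2 h
    obtain ⟨m, hm⟩ := AddCircle.coe_eq_zero_iff (p := Real.pi) |>.1 h'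
    refine ⟨m, ?_⟩
    rw [zsmul_eq_mul] at hm
    linarith
  · rintro ⟨m, rfl⟩
    exact pr_add_int t m

lemma sec_source (a : ℝ) : (sec a).source = {pr a}ᶜ := rfl

lemma sec_target (a : ℝ) : (sec a).target = Ioo a (a + Real.pi) := rfl

lemma sec_symm (a t : ℝ) : (sec a).symm t = pr t := rfl

lemma sec_pr {a t : ℝ} (h : t ∈ Ioo a (a + Real.pi)) : sec a (pr t) = t :=
  (AddCircle.openPartialHomeomorphCoe Real.pi a).left_inv h

lemma pr_mem_source {a t : ℝ} (h : t ∈ Ioo a (a + Real.pi)) : pr t ∈ (sec a).source :=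
  (AddCircle.openPartialHomeomorphCoe Real.pi a).map_source h

lemma pr_sec {a : ℝ} {p : Circ} (h : p ∈ (sec a).source) : pr (sec a p) = p :=
  (sec a).left_inv h

lemma sec_mem {a : ℝ} {p : Circ} (h : p ∈ (sec a).source) : sec a p ∈ Ioo a (a + Real.pi) :=
  (sec a).map_source h

/-- a representative -/
noncomputable def rep (p : Circ) : ℝ := (AddCircle.equivIco Real.pi 0 p : ℝ)

lemma pr_rep (p : Circ) : pr (rep p) = p := AddCircle.coe_equivIco

lemma continuous_pr : Continuous pr := AddCircle.continuous_mk' Real.pi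

lemma nhds_pr (t : ℝ) : 𝓝 (pr t) = map pr (𝓝 t) := QuotientAddGroup.nhds_eq _ t

lemma rep_mem (p : Circ) : p ∈ (ch (rep p - Real.pi / 2)).source := by
  unfold ch
  have h : p ∈ (sec (rep p - Real.pi / 2)).source := by
    have := pr_mem_source (a := rep p - Real.pi / 2) (t := rep p)
      ⟨by linarith [Real.pi_pos], by linarith [Real.pi_pos]⟩
    rwa [pr_rep] at this
  rw [OpenPartialHomeomorph.trans_source]
  exact ⟨h, mem_univ _⟩

noncomputable instance instCh : ChartedSpace (EuclideanHalfSpace 1) Circ where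
  atlas := range ch
  chartAt p := ch (rep p - Real.pi / 2)
  mem_chart_source p := rep_mem p
  chart_mem_atlas p := ⟨_, rfl⟩

/-- the local expression of a map of the circle is smooth when the lift is -/
lemma local_expr {k : WithTop ℕ∞} {F : Circ → Circ} {f : ℝ → ℝ} {b : ℝ} {m : ℤ}
    {v0 : EuclideanSpace ℝ (Fin 1)} (hv : 0 < v0 0) (hf : ContDiffAt ℝ k f (Real.log (v0 0)))
    (hF : ∀ᶠ t in 𝓝 (Real.log (v0 0)), F (pr t) = pr (f t))
    (hb : f (Real.log (v0 0)) + m * Real.pi ∈ Ioo b (b + Real.pi)) :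
    ContDiffAt ℝ k (fun v : EuclideanSpace ℝ (Fin 1) =>
      (WithLp.toLp 2 (fun _ => Real.exp (sec b (F (pr (Real.log (max (v 0) 0)))))) :
        EuclideanSpace ℝ (Fin 1))) v0 := by
  have hc : ContDiffAt ℝ k (fun v : EuclideanSpace ℝ (Fin 1) => v 0) v0 := by
    have : ContDiff ℝ k (fun v : EuclideanSpace ℝ (Fin 1) => v 0) :=
      (contDiff_apply ℝ ℝ (0 : Fin 1)).comp PiLp.contDiff_ofLp
    exact this.contDiffAt
  have hl : ContDiffAt ℝ k (fun v : EuclideanSpace ℝ (Fin 1) => Real.log (v 0)) v0 :=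
    hc.log hv.ne'
  have hfl : ContDiffAt ℝ k (fun v : EuclideanSpace ℝ (Fin 1) => f (Real.log (v 0))) v0 :=
    ContDiffAt.comp v0 hf hl
  have hg : ContDiffAt ℝ k (fun v : EuclideanSpace ℝ (Fin 1) =>
      (WithLp.toLp 2 (fun _ => Real.exp (f (Real.log (v 0)) + m * Real.pi)) :
        EuclideanSpace ℝ (Fin 1))) v0 := by
    rw [contDiffAt_euclidean]
    intro i
    exact (hfl.add contDiffAt_const).exp
  refine hg.congr_of_eventuallyEq ?_
  have e1 : ∀ᶠ v : EuclideanSpace ℝ (Fin 1) in 𝓝 v0, 0 < v 0 :=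
    hc.continuousAt.eventually (lt_mem_nhds hv)
  have e2 : ∀ᶠ v : EuclideanSpace ℝ (Fin 1) in 𝓝 v0,
      F (pr (Real.log (v 0))) = pr (f (Real.log (v 0))) := hl.continuousAt.eventually hF
  have e3 : ∀ᶠ v : EuclideanSpace ℝ (Fin 1) in 𝓝 v0,
      f (Real.log (v 0)) + m * Real.pi ∈ Ioo b (b + Real.pi) :=
    (hfl.continuousAt.add continuousAt_const).eventually (isOpen_Ioo.mem_nhds hb)
  filter_upwards [e1, e2, e3] with v h1 h2 h3
  rw [max_eq_left h1.le, h2, ← pr_add_int _ m, sec_pr h3]

instance instMan : IsManifold (𝓡∂ 1) ((⊤ : ℕ∞) : WithTop ℕ∞) Circ := by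
  apply isManifold_of_contDiffOn
  rintro e e' ⟨a, rfl⟩ ⟨b, rfl⟩
  rintro v ⟨hv1, hv2⟩
  have hv3 : 0 ≤ v 0 := by
    rw [range_modelWithCornersEuclideanHalfSpace] at hv2
    exact hv2
  have hv4 : ((𝓡∂ 1).symm v).1 0 = v 0 := by
    rw [modelWithCornersEuclideanHalfSpace_symm_apply]
    simp [hv3]
  rw [mem_preimage, OpenPartialHomeomorph.trans_source] at hv1
  obtain ⟨h1, h2⟩ := hv1
  have h1' : (𝓡∂ 1).symm v ∈ (ch a).target := h1
  unfold ch at h1'
  rw [OpenPartialHomeomorph.trans_target] at h1'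
  obtain ⟨h3, h4⟩ := h1'
  have h3' : 0 < ((𝓡∂ 1).symm v).1 0 := h3
  rw [hv4] at h3'
  have h2' : pr (Real.log (((𝓡∂ 1).symm v).1 0)) ∈ (ch b).source := h2
  rw [hv4] at h2'
  unfold ch at h2'
  rw [OpenPartialHomeomorph.trans_source] at h2'
  have h5 := pr_sec h2'.1
  have h6 := sec_mem h2'.1
  obtain ⟨m, hm⟩ := pr_eq_iff.1 h5
  rw [hm] at h6
  have key := local_expr (k := ((⊤ : ℕ∞) : WithTop ℕ∞)) (F := id) (f := id) (b := b) (m := m)
    h3' contDiffAt_id (Eventually.of_forall fun t => rfl) h6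
  exact key.contDiffWithinAt

theorem contMDiff_of_lift {k : WithTop ℕ∞} {F : Circ → Circ}
    (h : ∀ t0 : ℝ, ∃ f : ℝ → ℝ, ContDiffAt ℝ k f t0 ∧ ∀ᶠ t in 𝓝 t0, F (pr t) = pr (f t)) :
    ContMDiff (𝓡∂ 1) (𝓡∂ 1) k F := by
  intro p
  rw [contMDiffAt_iff]
  set a := rep p - Real.pi / 2 with ha
  set b := rep (F p) - Real.pi / 2 with hb
  have hp : p ∈ (sec a).source := by
    have := rep_mem p
    unfold ch at this
    rw [OpenPartialHomeomorph.trans_source] at this
    exact this.1
  have hFp : F p ∈ (sec b).source := by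
    have := rep_mem (F p)
    unfold ch at this
    rw [OpenPartialHomeomorph.trans_source] at this
    exact this.1
  obtain ⟨f, hf, hF⟩ := h (sec a p)
  have h1 := hF.self_of_nhds
  rw [pr_sec hp] at h1
  constructor
  · have hp' : p = pr (sec a p) := (pr_sec hp).symm
    rw [ContinuousAt, h1]
    nth_rewrite 1 [hp']
    rw [nhds_pr, tendsto_map'_iff]
    have : Tendsto (fun t => pr (f t)) (𝓝 (sec a p)) (𝓝 (pr (f (sec a p)))) :=
      (continuous_pr.tendsto _).comp hf.continuousAt
    exact this.congr' (hF.mono fun t ht => ht.symm)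
  · have h5 := pr_sec hFp
    have h6 := sec_mem hFp
    nth_rewrite 2 [h1] at h5
    obtain ⟨m, hm⟩ := pr_eq_iff.1 h5
    rw [hm] at h6
    set v0 : EuclideanSpace ℝ (Fin 1) := WithLp.toLp 2 (fun _ => Real.exp (sec a p)) with hv0
    have hv : 0 < v0 0 := Real.exp_pos _
    have hl : Real.log (v0 0) = sec a p := Real.log_exp _
    have key := local_expr (k := k) (F := F) (f := f) (b := b) (m := m) (v0 := v0)
      hv (by rw [hl]; exact hf) (by rw [hl]; exact hF) (by rw [hl]; exact h6)
    exact key.contDiffWithinAt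

end Pool.Agent.W337
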