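import Pool.Agent.W337.FlatTwo
import Pool.Agent.W337.FlatThree

set_option autoImplicit false

open Set Filter Topology Manifold

namespace Pool.Agent.W337

/-- the line inside the circle -/
noncomputable def cc (u : ℝ) : Circ := pr (Real.arctan u)

/-- the remaining point -/
noncomputable def qq : Circ := pr (Real.pi / 2)

lemma cc_inj : Function.Injective cc := by
  intro u v h
  obtain ⟨m, hm⟩ := pr_eq_iff.1 h
  have h1 := Real.neg_pi_div_two_lt_arctan u
  have h2 := Real.arctan_lt_pi_div_two u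
  have h3 := Real.neg_pi_div_two_lt_arctan v
  have h4 := Real.arctan_lt_pi_div_two v
  have hp := Real.pi_pos
  have h5 : (m : ℝ) * Real.pi < 1 * Real.pi := by linarith
  have h6 : (-1) * Real.pi < (m : ℝ) * Real.pi := by linarith
  have h7 : (m : ℝ) < 1 := lt_of_mul_lt_mul_right h5 hp.le
  have h8 : (-1 : ℝ) < m := lt_of_mul_lt_mul_right h6 hp.le
  have h9 : m < 1 := by exact_mod_cast h7
  have h10 : -1 < m := by exact_mod_cast h8
  have h11 : m = 0 := by omega
  subst h11
  simp only [Int.cast_zero, zero_mul, add_zero] at hm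
  exact Real.arctan_injective hm

lemma cc_ne (u : ℝ) : cc u ≠ qq := by
  intro h
  obtain ⟨m, hm⟩ := pr_eq_iff.1 h
  have h1 := Real.neg_pi_div_two_lt_arctan u
  have h2 := Real.arctan_lt_pi_div_two u
  have hp := Real.pi_pos
  have h5 : (m : ℝ) * Real.pi < 0 * Real.pi := by linarith
  have h6 : (-1) * Real.pi < (m : ℝ) * Real.pi := by linarith
  have h7 : (m : ℝ) < 0 := lt_of_mul_lt_mul_right h5 hp.le
  have h8 : (-1 : ℝ) < m := lt_of_mul_lt_mul_right h6 hp.le
  have h9 : m < 0 := by exact_mod_cast h7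
  have h10 : -1 < m := by exact_mod_cast h8
  omega

lemma exists_rep (p : Circ) : ∃ t ∈ Ioc (-(Real.pi / 2)) (Real.pi / 2), pr t = p := by
  refine ⟨(AddCircle.equivIoc Real.pi (-(Real.pi / 2)) p : ℝ), ?_, AddCircle.coe_equivIoc⟩
  have := (AddCircle.equivIoc Real.pi (-(Real.pi / 2)) p).2
  exact ⟨this.1, by linarith [this.2]⟩

lemma pr_eq_cc {t : ℝ} (h : t ∈ Ioo (-(Real.pi / 2)) (Real.pi / 2)) : pr t = cc (Real.tan t) := by
  unfold cc
  rw [Real.arctan_tan h.1 h.2]

/-- the circle as the line plus a point -/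
noncomputable def oe : Option ℝ ≃ Circ :=
  Equiv.ofBijective (fun o => o.elim qq cc) (by
    constructor
    · rintro (_ | u) (_ | v) h
      · rfl
      · exact absurd h.symm (cc_ne v)
      · exact absurd h (cc_ne u)
      · exact congrArg some (cc_inj h)
    · intro p
      obtain ⟨t, ht, rfl⟩ := exists_rep p
      rcases lt_or_eq_of_le ht.2 with h | h
      · exact ⟨some (Real.tan t), (pr_eq_cc ⟨ht.1, h⟩).symm⟩
      · exact ⟨none, by rw [h]; rfl⟩)

/-- extension of a map of the line to the circle -/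
noncomputable def ext (T : ℝ → ℝ) (p : Circ) : Circ := oe (Option.map T (oe.symm p))

lemma ext_cc (T : ℝ → ℝ) (u : ℝ) : ext T (cc u) = cc (T u) := by
  have : oe.symm (cc u) = some u := by
    rw [Equiv.symm_apply_eq]
    rfl
  unfold ext
  rw [this]
  rfl

lemma ext_qq (T : ℝ → ℝ) : ext T qq = qq := by
  have : oe.symm qq = none := by
    rw [Equiv.symm_apply_eq]
    rfl
  unfold ext
  rw [this]
  rfl

lemma ext_comp (T S : ℝ → ℝ) (p : Circ) : ext T (ext S p) = ext (T ∘ S) p := by
  unfold ext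
  rw [Equiv.symm_apply_apply, Option.map_map]

lemma ext_id (p : Circ) : ext id p = p := by
  unfold ext
  rw [Option.map_id]
  simp

lemma ext_congr {T S : ℝ → ℝ} (h : ∀ u, T u = S u) (p : Circ) : ext T p = ext S p := by
  have : T = S := funext h
  rw [this]

lemma cc_inv {w : ℝ} (hw : w ≠ 0) : cc w⁻¹ = pr (Real.pi / 2 - Real.arctan w) := by
  unfold cc
  rcases lt_or_gt_of_ne hw with h | h
  · rw [Real.arctan_inv_of_neg h, pr_eq_iff]
    refine ⟨-1, ?_⟩
    push_cast
    ring
  · rw [Real.arctan_inv_of_pos h]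

theorem ext_contMDiff {T T' : ℝ → ℝ} {ε : ℝ} (hd : ∀ u, HasDerivAt T (T' u) u)
    (hc : Continuous T') (l1 : Tendsto T' (atBot ⊔ atTop) (𝓝 ε))
    (l2 : Tendsto (fun u => T u / u) (atBot ⊔ atTop) (𝓝 ε)) (hε : ε ≠ 0) :
    ContMDiff (𝓡∂ 1) (𝓡∂ 1) 1 (ext T) := by
  have hpi := Real.pi_pos
  apply contMDiff_of_lift
  have main : ∀ t0 ∈ Ioc (-(Real.pi / 2)) (Real.pi / 2), ∃ f : ℝ → ℝ, ContDiffAt ℝ 1 f t0 ∧
      ∀ᶠ t in 𝓝 t0, ext T (pr t) = pr (f t) := by
    intro t0 ht0
    rcases lt_or_eq_of_le ht0.2 with h | h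
    · refine ⟨fun t => Real.arctan (T (Real.tan t)), ?_, ?_⟩
      · have hT : ContDiff ℝ 1 T := by
          rw [contDiff_one_iff_deriv]
          refine ⟨fun u => (hd u).differentiableAt, ?_⟩
          have : deriv T = T' := funext fun u => (hd u).deriv
          rw [this]
          exact hc
        have htan : ContDiffAt ℝ 1 Real.tan t0 := by
          rw [Real.contDiffAt_tan]
          exact (Real.cos_pos_of_mem_Ioo ⟨ht0.1, h⟩).ne'
        exact (hT.contDiffAt.comp t0 htan).arctan
      · filter_upwards [isOpen_Ioo.mem_nhds (show t0 ∈ Ioo (-(Real.pi / 2)) (Real.pi / 2) from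
          ⟨ht0.1, h⟩)] with t ht
        rw [pr_eq_cc ht, ext_cc]
        rfl
    · subst h
      refine ⟨fun t => Real.pi / 2 - Real.arctan (kap T (Real.tan (Real.pi / 2 - t))), ?_, ?_⟩
      · have hk := kap_contDiffAt hd hc l1 l2 hε
        have h0 : Real.tan (Real.pi / 2 - Real.pi / 2) = 0 := by simp
        have h1 : ContDiffAt ℝ 1 (fun t : ℝ => Real.pi / 2 - t) (Real.pi / 2) :=
          contDiffAt_const.sub contDiffAt_id
        have h2 : ContDiffAt ℝ 1 (fun t : ℝ => Real.tan (Real.pi / 2 - t)) (Real.pi / 2) := by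
          refine ContDiffAt.comp (g := Real.tan) (Real.pi / 2) ?_ h1
          rw [Real.contDiffAt_tan]
          simp
        have h3 : ContDiffAt ℝ 1 (fun t : ℝ => kap T (Real.tan (Real.pi / 2 - t)))
            (Real.pi / 2) := by
          refine ContDiffAt.comp (g := kap T) (Real.pi / 2) ?_ h2
          rw [h0]
          exact hk
        exact contDiffAt_const.sub h3.arctan
      · have m2 : Tendsto (fun w : ℝ => T w⁻¹ / w⁻¹) (𝓝[≠] 0) (𝓝 ε) := l2.comp tendsto_inv_punct
        have nz : ∀ᶠ w in 𝓝[≠] (0:ℝ), T w⁻¹ / w⁻¹ ≠ 0 := m2.eventually_ne hε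
        rw [eventually_nhdsWithin_iff] at nz
        have hcts : ContinuousAt (fun t : ℝ => Real.tan (Real.pi / 2 - t)) (Real.pi / 2) := by
          refine ContinuousAt.comp (g := Real.tan) ?_ (by fun_prop)
          rw [Real.continuousAt_tan]
          simp
        have h0 : Real.tan (Real.pi / 2 - Real.pi / 2) = 0 := by simp
        have nz2 : ∀ᶠ t in 𝓝 (Real.pi / 2), Real.tan (Real.pi / 2 - t) ∈ ({0} : Set ℝ)ᶜ →
            T (Real.tan (Real.pi / 2 - t))⁻¹ / (Real.tan (Real.pi / 2 - t))⁻¹ ≠ 0 := by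
          refine hcts.eventually (p := fun w => w ∈ ({0} : Set ℝ)ᶜ → T w⁻¹ / w⁻¹ ≠ 0) ?_
          simp only [h0]
          exact nz
        filter_upwards [nz2, isOpen_Ioo.mem_nhds (show Real.pi / 2 ∈ Ioo 0 Real.pi from
          ⟨by linarith, by linarith⟩)] with t ht1 ht2
        set w := Real.tan (Real.pi / 2 - t) with hw
        have haw : Real.arctan w = Real.pi / 2 - t := by
          rw [hw, Real.arctan_tan]
          · linarith [ht2.2]
          · linarith [ht2.1]
        have ht : t = Real.pi / 2 - Real.arctan w := by linarith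
        by_cases hw0 : w = 0
        · have h5 : t = Real.pi / 2 := by rw [ht, hw0]; simp
          rw [hw0, h5]
          have : kap T 0 = 0 := by unfold kap; simp
          rw [this]
          simp only [Real.arctan_zero, sub_zero]
          exact ext_qq T
        · have h6 := ht1 hw0
          have h7 : T w⁻¹ ≠ 0 := fun h => h6 (by rw [h]; simp)
          have h8 : kap T w = (T w⁻¹)⁻¹ := by unfold kap; rw [if_neg hw0]
          rw [h8, ← cc_inv (inv_ne_zero h7), inv_inv]
          nth_rewrite 1 [ht]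
          rw [← cc_inv hw0, ext_cc]
  intro t0
  obtain ⟨t1, ht1, he⟩ := exists_rep (pr t0)
  obtain ⟨m, hm⟩ := pr_eq_iff.1 he
  obtain ⟨f, hf, hF⟩ := main t1 ht1
  refine ⟨fun t => f (t + m * Real.pi), ?_, ?_⟩
  · refine ContDiffAt.comp t0 (g := f) ?_ (contDiffAt_id.add contDiffAt_const)
    rw [← hm]
    exact hf
  · have hct : ContinuousAt (fun t : ℝ => t + m * Real.pi) t0 := by fun_prop
    have : ∀ᶠ t in 𝓝 t0, ext T (pr (t + m * Real.pi)) = pr (f (t + m * Real.pi)) := by
      refine hct.eventually (p := fun s => ext T (pr s) = pr (f s)) ?_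
      simp only [← hm]
      exact hF
    filter_upwards [this] with t ht
    rw [← ht, pr_add_int]

end Pool.Agent.W337
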