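import Mathlib

set_option autoImplicit false

open Set Filter Topology

namespace Pool.Agent.W337

/-- the logit function -/
noncomputable def lgt (y : ℝ) : ℝ := Real.log y - Real.log (1 - y)

lemma lgt_sigmoid (u : ℝ) : lgt (Real.sigmoid u) = u := by
  unfold lgt
  rw [← Real.sigmoid_neg, ← Real.sigmoid_mul_rexp_neg,
    Real.log_mul (Real.sigmoid_pos u).ne' (Real.exp_pos _).ne', Real.log_exp]
  ring

lemma sigmoid_lgt {y : ℝ} (hy : y ∈ Ioo (0 : ℝ) 1) : Real.sigmoid (lgt y) = y := by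
  rw [← Real.range_sigmoid] at hy
  obtain ⟨u, rfl⟩ := hy
  rw [lgt_sigmoid]

lemma sigmoid_mem (u : ℝ) : Real.sigmoid u ∈ Ioo (0 : ℝ) 1 :=
  ⟨Real.sigmoid_pos u, Real.sigmoid_lt_one u⟩

lemma lgt_one_sub (y : ℝ) : lgt (1 - y) = - lgt y := by
  unfold lgt
  have : 1 - (1 - y) = y := by ring
  rw [this]
  ring

/-- the map in the logit coordinate -/
noncomputable def tau (f : ℝ → ℝ) (u : ℝ) : ℝ := lgt (f (Real.sigmoid u))

/-- its derivative, in terms of the derivative `f'` of `f` -/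
noncomputable def tau' (f f' : ℝ → ℝ) (u : ℝ) : ℝ :=
  Real.sigmoid u * (1 - Real.sigmoid u) * f' (Real.sigmoid u) /
    (f (Real.sigmoid u) * (1 - f (Real.sigmoid u)))

/-- a `C^1` self-map of the interval, with nonvanishing derivatives at both ends -/
structure Good (f f' : ℝ → ℝ) : Prop where
  maps : ∀ y ∈ Ioo (0 : ℝ) 1, f y ∈ Ioo (0 : ℝ) 1
  der : ∀ y ∈ Icc (0 : ℝ) 1, HasDerivWithinAt f (f' y) (Icc 0 1) y
  cont : ContinuousOn f' (Icc 0 1)
  ne0 : f' 0 ≠ 0
  ne1 : f' 1 ≠ 0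

lemma Good.neg {f f' : ℝ → ℝ} (h : Good f f') : Good (fun y => 1 - f y) (fun y => - f' y) where
  maps y hy := by
    have := h.maps y hy
    constructor <;> [linarith [this.2]; linarith [this.1]]
  der y hy := by
    simpa using (h.der y hy).const_sub 1
  cont := h.cont.neg
  ne0 := by simpa using h.ne0
  ne1 := by simpa using h.ne1

lemma Good.refl {f f' : ℝ → ℝ} (h : Good f f') :
    Good (fun y => 1 - f (1 - y)) (fun y => f' (1 - y)) where
  maps y hy := by
    have := h.maps (1 - y) ⟨by linarith [hy.2], by linarith [hy.1]⟩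
    constructor <;> [linarith [this.2]; linarith [this.1]]
  der y hy := by
    have h1 : HasDerivWithinAt (fun y : ℝ => 1 - y) (-1) (Icc 0 1) y := by
      simpa using (hasDerivWithinAt_id y (Icc (0:ℝ) 1)).const_sub 1
    have h2 := h.der (1 - y) ⟨by linarith [hy.2], by linarith [hy.1]⟩
    have h3 := HasDerivWithinAt.comp y h2 h1 (by
      intro z hz
      exact ⟨by linarith [hz.2], by linarith [hz.1]⟩)
    have h4 := h3.const_sub 1
    simpa using h4
  cont := by
    refine h.cont.comp (by fun_prop) ?_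
    intro z hz
    exact ⟨by linarith [hz.2], by linarith [hz.1]⟩
  ne0 := by simpa using h.ne1
  ne1 := by simpa using h.ne0

lemma tau_neg (f : ℝ → ℝ) (u : ℝ) : tau (fun y => 1 - f y) u = - tau f u := by
  unfold tau
  rw [lgt_one_sub]

lemma tau_refl (f : ℝ → ℝ) (u : ℝ) : tau (fun y => 1 - f (1 - y)) u = - tau f (-u) := by
  unfold tau
  rw [lgt_one_sub, Real.sigmoid_neg]

lemma tau'_neg (f f' : ℝ → ℝ) (u : ℝ) :
    tau' (fun y => 1 - f y) (fun y => - f' y) u = - tau' f f' u := by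
  unfold tau'
  simp only
  have : (1 - f (Real.sigmoid u)) * (1 - (1 - f (Real.sigmoid u))) =
    f (Real.sigmoid u) * (1 - f (Real.sigmoid u)) := by ring
  rw [this]
  ring

lemma tau'_refl (f f' : ℝ → ℝ) (u : ℝ) :
    tau' (fun y => 1 - f (1 - y)) (fun y => f' (1 - y)) u = tau' f f' (-u) := by
  unfold tau'
  simp only [Real.sigmoid_neg]
  have : (1 - f (1 - Real.sigmoid u)) * (1 - (1 - f (1 - Real.sigmoid u))) =
    f (1 - Real.sigmoid u) * (1 - f (1 - Real.sigmoid u)) := by ring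
  rw [this]
  have h2 : 1 - (1 - Real.sigmoid u) = Real.sigmoid u := by ring
  rw [h2]
  ring

lemma tendsto_sigmoid_atBot' : Tendsto Real.sigmoid atBot (𝓝[>] 0) :=
  tendsto_nhdsWithin_iff.2 ⟨Real.tendsto_sigmoid_atBot, Eventually.of_forall Real.sigmoid_pos⟩

lemma Good.quot {f f' : ℝ → ℝ} (h : Good f f') (h0 : f 0 = 0) :
    Tendsto (fun y => f y / y) (𝓝[>] 0) (𝓝 (f' 0)) := by
  have h1 := h.der 0 (by simp)
  have h2 : HasDerivWithinAt f (f' 0) (Ioo 0 1) 0 := h1.mono Ioo_subset_Icc_self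
  rw [hasDerivWithinAt_iff_tendsto_slope' (by simp)] at h2
  have h3 : 𝓝[Ioo 0 1] (0:ℝ) = 𝓝[>] 0 := by
    exact nhdsWithin_Ioo_eq_nhdsGT (by norm_num)
  rw [h3] at h2
  refine h2.congr ?_
  intro y
  rw [slope_def_field, h0]
  simp

lemma Good.tendsto0 {f f' : ℝ → ℝ} (h : Good f f') (h0 : f 0 = 0) :
    Tendsto f (𝓝[>] 0) (𝓝 0) := by
  have h1 := (h.der 0 (by simp)).continuousWithinAt
  have h2 : ContinuousWithinAt f (Ioo 0 1) 0 := h1.mono Ioo_subset_Icc_self
  have h3 : 𝓝[Ioo 0 1] (0:ℝ) = 𝓝[>] 0 := nhdsWithin_Ioo_eq_nhdsGT (by norm_num)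
  unfold ContinuousWithinAt at h2
  rwa [h3, h0] at h2

lemma Good.tendsto0' {f f' : ℝ → ℝ} (h : Good f f') :
    Tendsto f' (𝓝[>] 0) (𝓝 (f' 0)) := by
  have h1 := h.cont 0 (by simp)
  have h2 : ContinuousWithinAt f' (Ioo 0 1) 0 := h1.mono Ioo_subset_Icc_self
  have h3 : 𝓝[Ioo 0 1] (0:ℝ) = 𝓝[>] 0 := nhdsWithin_Ioo_eq_nhdsGT (by norm_num)
  unfold ContinuousWithinAt at h2
  rwa [h3] at h2

lemma Good.pos {f f' : ℝ → ℝ} (h : Good f f') (h0 : f 0 = 0) : 0 < f' 0 := by
  refine lt_of_le_of_ne ?_ h.ne0.symm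
  refine ge_of_tendsto (h.quot h0) ?_
  have : Ioo (0:ℝ) 1 ∈ 𝓝[>] (0:ℝ) := Ioo_mem_nhdsGT (by norm_num)
  filter_upwards [this] with y hy
  exact div_nonneg (h.maps y hy).1.le hy.1.le

lemma Good.lim_der {f f' : ℝ → ℝ} (h : Good f f') (h0 : f 0 = 0) :
    Tendsto (tau' f f') atBot (𝓝 1) := by
  have key : Tendsto (fun y => (f y / y)⁻¹ * ((1 - y) / (1 - f y)) * f' y) (𝓝[>] 0)
      (𝓝 ((f' 0)⁻¹ * ((1 - 0) / (1 - 0)) * f' 0)) := by
    have hy : Tendsto (fun y : ℝ => y) (𝓝[>] 0) (𝓝 0) := nhdsWithin_le_nhds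
    refine ((h.quot h0).inv₀ h.ne0).mul ?_ |>.mul h.tendsto0'
    refine Tendsto.div (hy.const_sub 1) ((h.tendsto0 h0).const_sub 1) (by norm_num)
  have e : (f' 0)⁻¹ * ((1 - 0) / (1 - 0)) * f' 0 = 1 := by
    have := h.ne0
    field_simp
  rw [e] at key
  refine (key.comp tendsto_sigmoid_atBot').congr ?_
  intro u
  have h1 := sigmoid_mem u
  have h2 := h.maps _ h1
  have h3 : f (Real.sigmoid u) ≠ 0 := h2.1.ne'
  have h4 : 1 - f (Real.sigmoid u) ≠ 0 := by linarith [h2.2]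
  have h5 : Real.sigmoid u ≠ 0 := h1.1.ne'
  simp only [Function.comp, tau']
  field_simp

lemma Good.lim_sub {f f' : ℝ → ℝ} (h : Good f f') (h0 : f 0 = 0) :
    Tendsto (fun u => tau f u - u) atBot (𝓝 (Real.log (f' 0))) := by
  have key : Tendsto (fun y => Real.log (f y / y) + Real.log ((1 - y) / (1 - f y))) (𝓝[>] 0)
      (𝓝 (Real.log (f' 0) + Real.log ((1 - 0) / (1 - 0)))) := by
    have hy : Tendsto (fun y : ℝ => y) (𝓝[>] 0) (𝓝 0) := nhdsWithin_le_nhds
    refine ((h.quot h0).log h.ne0).add ?_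
    refine Tendsto.log ?_ (by norm_num)
    refine Tendsto.div (hy.const_sub 1) ((h.tendsto0 h0).const_sub 1) (by norm_num)
  have e : Real.log (f' 0) + Real.log ((1 - 0) / (1 - 0)) = Real.log (f' 0) := by
    norm_num
  rw [e] at key
  refine (key.comp tendsto_sigmoid_atBot').congr ?_
  intro u
  have h1 := sigmoid_mem u
  have h2 := h.maps _ h1
  have h3 : f (Real.sigmoid u) ≠ 0 := h2.1.ne'
  have h4 : 1 - f (Real.sigmoid u) ≠ 0 := by linarith [h2.2]
  have h5 : Real.sigmoid u ≠ 0 := h1.1.ne'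
  have h6 : 1 - Real.sigmoid u ≠ 0 := by linarith [h1.2]
  simp only [Function.comp, tau, lgt]
  rw [Real.log_div h3 h5, Real.log_div h6 h4]
  have := lgt_sigmoid u
  unfold lgt at this
  linarith

/-- both ends, orientation preserving -/
lemma Good.mono_lims {f f' : ℝ → ℝ} (h : Good f f') (h0 : f 0 = 0) (h1 : f 1 = 1) :
    Tendsto (tau' f f') (atBot ⊔ atTop) (𝓝 1) ∧
    Tendsto (fun u => tau f u / u) (atBot ⊔ atTop) (𝓝 1) := by
  have hb := h.lim_der h0
  have hbs := h.lim_sub h0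
  have g := h.refl
  have g0 : 1 - f (1 - 0) = 0 := by simp [h1]
  have hT := g.lim_der g0
  have hTs := g.lim_sub g0
  have e1 : Tendsto (tau' f f') atTop (𝓝 1) := by
    have := hT.comp tendsto_neg_atTop_atBot
    refine this.congr ?_
    intro u
    simp only [Function.comp, tau'_refl, neg_neg]
  have e2 : Tendsto (fun u => tau f u - u) atTop (𝓝 (- Real.log (f' (1 - 0)))) := by
    have := (hTs.comp tendsto_neg_atTop_atBot).neg
    refine this.congr ?_
    intro u
    simp only [Function.comp, tau_refl, neg_neg]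
    ring
  refine ⟨Tendsto.sup hb e1, Tendsto.sup ?_ ?_⟩
  · have h3 : Tendsto (fun u : ℝ => (tau f u - u) * u⁻¹ + 1) atBot
        (𝓝 (Real.log (f' 0) * 0 + 1)) := (hbs.mul tendsto_inv_atBot_zero).add_const 1
    rw [mul_zero, zero_add] at h3
    refine h3.congr' ?_
    filter_upwards [eventually_lt_atBot (0:ℝ)] with u hu
    have : u ≠ 0 := hu.ne
    field_simp
    ring
  · have h3 : Tendsto (fun u : ℝ => (tau f u - u) * u⁻¹ + 1) atTop
        (𝓝 (- Real.log (f' (1 - 0)) * 0 + 1)) := (e2.mul tendsto_inv_atTop_zero).add_const 1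
    rw [mul_zero, zero_add] at h3
    refine h3.congr' ?_
    filter_upwards [eventually_gt_atTop (0:ℝ)] with u hu
    have : u ≠ 0 := hu.ne'
    field_simp
    ring

/-- both ends, orientation reversing -/
lemma Good.anti_lims {f f' : ℝ → ℝ} (h : Good f f') (h0 : f 0 = 1) (h1 : f 1 = 0) :
    Tendsto (tau' f f') (atBot ⊔ atTop) (𝓝 (-1)) ∧
    Tendsto (fun u => tau f u / u) (atBot ⊔ atTop) (𝓝 (-1)) := by
  obtain ⟨a, b⟩ := h.neg.mono_lims (by simp [h0]) (by simp [h1])
  refine ⟨?_, ?_⟩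
  · refine a.neg.congr ?_
    intro u
    rw [tau'_neg]
    ring
  · refine b.neg.congr ?_
    intro u
    rw [tau_neg]
    ring

lemma Good.hasDerivAt {f f' : ℝ → ℝ} (h : Good f f') (u : ℝ) :
    HasDerivAt (tau f) (tau' f f' u) u := by
  have h1 := sigmoid_mem u
  have h2 := h.maps _ h1
  have hs := Real.hasDerivAt_sigmoid u
  have hf : HasDerivAt f (f' (Real.sigmoid u)) (Real.sigmoid u) :=
    (h.der _ (Ioo_subset_Icc_self h1)).hasDerivAt (Icc_mem_nhds h1.1 h1.2)
  have hfs := hf.comp u hs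
  have h3 : f (Real.sigmoid u) ≠ 0 := h2.1.ne'
  have h4 : 1 - f (Real.sigmoid u) ≠ 0 := by linarith [h2.2]
  have a := hfs.log h3
  have b := (hfs.const_sub 1).log h4
  have c := a.sub b
  have e : tau' f f' u = f' (Real.sigmoid u) * (Real.sigmoid u * (1 - Real.sigmoid u)) /
      (f ∘ Real.sigmoid) u - -(f' (Real.sigmoid u) * (Real.sigmoid u * (1 - Real.sigmoid u))) /
      (1 - (f ∘ Real.sigmoid) u) := by
    simp only [Function.comp, tau']
    field_simp
    ring
  rw [e]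
  exact c

lemma Good.continuous_tau' {f f' : ℝ → ℝ} (h : Good f f') : Continuous (tau' f f') := by
  have hfs : Continuous (fun u => f (Real.sigmoid u)) := by
    have hf : ContinuousOn f (Icc 0 1) := fun y hy => (h.der y hy).continuousWithinAt
    exact hf.comp_continuous continuous_sigmoid (fun u => Ioo_subset_Icc_self (sigmoid_mem u))
  have hfs' : Continuous (fun u => f' (Real.sigmoid u)) :=
    h.cont.comp_continuous continuous_sigmoid (fun u => Ioo_subset_Icc_self (sigmoid_mem u))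
  unfold tau'
  have := continuous_sigmoid
  refine Continuous.div ?_ ?_ ?_
  · exact (this.mul (continuous_const.sub this)).mul hfs'
  · exact hfs.mul (continuous_const.sub hfs)
  · intro u
    have h2 := h.maps _ (sigmoid_mem u)
    have h3 : f (Real.sigmoid u) ≠ 0 := h2.1.ne'
    have h4 : 1 - f (Real.sigmoid u) ≠ 0 := by linarith [h2.2]
    exact mul_ne_zero h3 h4

end Pool.Agent.W337
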