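import Pool.Agent.W337.FlatOne

set_option autoImplicit false

open Set Filter Topology

namespace Pool.Agent.W337

/-- the map in the coordinate `w = 1/u` -/
noncomputable def kap (T : ℝ → ℝ) (w : ℝ) : ℝ := if w = 0 then 0 else (T w⁻¹)⁻¹

noncomputable def kap' (T T' : ℝ → ℝ) (ε : ℝ) (w : ℝ) : ℝ :=
  if w = 0 then ε⁻¹ else T' w⁻¹ * ((T w⁻¹ / w⁻¹)⁻¹) ^ 2

lemma tendsto_inv_punct : Tendsto (fun w : ℝ => w⁻¹) (𝓝[≠] 0) (atBot ⊔ atTop) := by
  rw [← IsOrderBornology.cobounded_eq]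
  exact tendsto_inv₀_nhdsNE_zero

lemma kap_contDiffAt {T T' : ℝ → ℝ} {ε : ℝ} (hd : ∀ u, HasDerivAt T (T' u) u)
    (hc : Continuous T') (l1 : Tendsto T' (atBot ⊔ atTop) (𝓝 ε))
    (l2 : Tendsto (fun u => T u / u) (atBot ⊔ atTop) (𝓝 ε)) (hε : ε ≠ 0) :
    ContDiffAt ℝ 1 (kap T) 0 := by
  -- nonvanishing near infinity
  have m2 : Tendsto (fun w : ℝ => T w⁻¹ / w⁻¹) (𝓝[≠] 0) (𝓝 ε) := l2.comp tendsto_inv_punct
  have m1 : Tendsto (fun w : ℝ => T' w⁻¹) (𝓝[≠] 0) (𝓝 ε) := l1.comp tendsto_inv_punct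
  have nz : ∀ᶠ w in 𝓝[≠] (0:ℝ), T w⁻¹ / w⁻¹ ≠ 0 := m2.eventually_ne hε
  rw [eventually_nhdsWithin_iff] at nz
  have nz' : ∀ᶠ w in 𝓝 (0:ℝ), w ≠ 0 → T w⁻¹ / w⁻¹ ≠ 0 := nz
  obtain ⟨δ, hδ, hball⟩ := Metric.eventually_nhds_iff_ball.1 nz'
  have cont_g0 : ContinuousAt (kap' T T' ε) 0 := by
    rw [← continuousWithinAt_compl_self]
    unfold ContinuousWithinAt
    have h3 := m1.mul ((m2.inv₀ hε).pow 2)
    have h4 : kap' T T' ε 0 = ε * ε⁻¹ ^ 2 := by
      unfold kap'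
      rw [if_pos rfl]
      field_simp
    rw [h4]
    refine h3.congr' ?_
    filter_upwards [self_mem_nhdsWithin] with w hw
    have hw' : w ≠ 0 := hw
    unfold kap'
    rw [if_neg hw']
  have hder0 : HasDerivAt (kap T) (kap' T T' ε 0) 0 := by
    rw [hasDerivAt_iff_tendsto_slope]
    have h4 : kap' T T' ε 0 = ε⁻¹ := by
      unfold kap'
      rw [if_pos rfl]
    rw [h4]
    refine (m2.inv₀ hε).congr' ?_
    filter_upwards [self_mem_nhdsWithin] with w hw
    have hw' : w ≠ 0 := hw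
    rw [slope_def_field]
    unfold kap
    rw [if_neg hw', if_pos rfl, sub_zero, sub_zero, inv_div]
    generalize T w⁻¹ = a
    ring
  have hder : ∀ w ∈ Metric.ball (0:ℝ) δ, HasDerivAt (kap T) (kap' T T' ε w) w := by
    intro w hw
    by_cases h0 : w = 0
    · subst h0
      exact hder0
    · have hne := hball w hw h0
      have hT : T w⁻¹ ≠ 0 := fun h => hne (by rw [h]; simp)
      have e1 : HasDerivAt (fun w : ℝ => w⁻¹) (-(w ^ 2)⁻¹) w := hasDerivAt_inv h0
      have e2 := (hd w⁻¹).comp w e1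
      have e3 := e2.inv hT
      have e4 : kap T =ᶠ[𝓝 w] fun w => (T w⁻¹)⁻¹ := by
        filter_upwards [isOpen_ne.mem_nhds h0] with z hz
        unfold kap
        rw [if_neg hz]
      have e5 : kap' T T' ε w = -(T' w⁻¹ * -(w ^ 2)⁻¹) / (T ∘ fun w => w⁻¹) w ^ 2 := by
        unfold kap'
        rw [if_neg h0]
        simp only [Function.comp]
        field_simp
      rw [e5]
      exact e3.congr_of_eventuallyEq e4
  have hcont : ContinuousOn (kap' T T' ε) (Metric.ball (0:ℝ) δ) := by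
    intro w hw
    by_cases h0 : w = 0
    · subst h0
      exact cont_g0.continuousWithinAt
    · have hne := hball w hw h0
      have hT : T w⁻¹ ≠ 0 := fun h => hne (by rw [h]; simp)
      have cT : Continuous T := continuous_iff_continuousAt.2 fun u => (hd u).continuousAt
      have ci : ContinuousAt (fun w : ℝ => w⁻¹) w := continuousAt_inv₀ h0
      have c1 : ContinuousAt (fun w : ℝ => T w⁻¹) w := cT.continuousAt.comp ci
      have c2 : ContinuousAt (fun w : ℝ => T' w⁻¹) w := hc.continuousAt.comp ci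
      have c3 : ContinuousAt (fun w : ℝ => T' w⁻¹ * ((T w⁻¹ / w⁻¹)⁻¹) ^ 2) w :=
        c2.mul (((c1.div ci (inv_ne_zero h0)).inv₀ hne).pow 2)
      have e4 : kap' T T' ε =ᶠ[𝓝 w] fun w => T' w⁻¹ * ((T w⁻¹ / w⁻¹)⁻¹) ^ 2 := by
        filter_upwards [isOpen_ne.mem_nhds h0] with z hz
        unfold kap'
        rw [if_neg hz]
      exact (c3.congr e4.symm).continuousWithinAt
  rw [contDiffAt_one_iff]
  refine ⟨fun w => (ContinuousLinearMap.toSpanSingleton ℝ (kap' T T' ε w)), Metric.ball 0 δ,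
    Metric.ball_mem_nhds 0 hδ, ?_, ?_⟩
  · have : Continuous (fun r : ℝ => ContinuousLinearMap.toSpanSingleton ℝ r) := by
      exact (ContinuousLinearMap.toSpanSingletonCLE (𝕜 := ℝ) (E := ℝ)).continuous
    exact this.comp_continuousOn hcont
  · intro w hw
    exact (hder w hw).hasFDerivAt

end Pool.Agent.W337
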