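import Pool.Agent.W527.PC.Stm

set_option autoImplicit false

namespace Pool.Agent.W337.PCMEMCL

open NumberField Pool.Agent.W527.CL Pool.Agent.W527.PC Filter Topology

theorem G_nsmul {K : Type} [Field K] [NumberField K] (D : FieldData K) (σ : Equiv.Perm (Fin 5))
    (X : Matrix (Fin 4) (Fin 5) ℤ) (n : ℕ) : G D σ (n • X) = G D σ X ^ n := by
  induction n with
  | zero => rw [zero_smul, G_zero, pow_zero]
  | succ n ih => rw [succ_nsmul, G_add, ih, pow_succ]

theorem t_MEMCL : S_MEMCL := by
  intro K _ _ D p hp _ σ s0 h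
  choose s hs1 hs2 using h
  have hY : ∀ n : ℕ, ∃ Y : Matrix (Fin 4) (Fin 5) ℤ, Y ∈ USym ∧ tens (s n) = tens s0 + p • Y := by
    intro n
    choose c hc using hs1 n
    refine ⟨fun i j => c i.castSucc * s n j + s0 i.castSucc * c j, ?_, ?_⟩
    · intro i j
      have h1 := hc i.castSucc
      have h2 := hc j.castSucc
      have e1 : s n i.castSucc = s0 i.castSucc + p * c i.castSucc := by linarith
      have e2 : s n j.castSucc = s0 j.castSucc + p * c j.castSucc := by linarith
      change c i.castSucc * s n j.castSucc + s0 i.castSucc * c j.castSucc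
        = c j.castSucc * s n i.castSucc + s0 j.castSucc * c i.castSucc
      rw [e1, e2]
      ring
    · ext i j
      have h1 := hc i.castSucc
      have h2 := hc j
      have e1 : s n i.castSucc = s0 i.castSucc + p * c i.castSucc := by linarith
      have e2 : s n j = s0 j + p * c j := by linarith
      change s n i.castSucc * s n j = s0 i.castSucc * s0 j
        + p • (c i.castSucc * s n j + s0 i.castSucc * c j)
      rw [nsmul_eq_mul, e1, e2]
      ring
  choose Y hYU hYe using hY
  have hlim : Tendsto (fun n => embp K p (G D σ (tens (s n)))) atTop (𝓝 1) := by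
    rw [tendsto_pi_nhds]
    intro φ
    rw [Units.isEmbedding_val₀.tendsto_nhds_iff]
    have h1 : Tendsto (fun n => φ ((G D σ (tens (s n)) : Kˣ) : K)) atTop (𝓝 1) := by
      rw [tendsto_iff_norm_sub_tendsto_zero]
      have h2 : Tendsto (fun n : ℕ => (p : ℝ) ^ (-(n : ℤ))) atTop (𝓝 0) := by
        have hp1 : (1 : ℝ) < p := by exact_mod_cast hp.out.one_lt
        have h3 : Tendsto (fun n : ℕ => ((p : ℝ)⁻¹) ^ n) atTop (𝓝 0) :=
          tendsto_pow_atTop_nhds_zero_of_lt_one (inv_nonneg.2 (by positivity))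
            (inv_lt_one_of_one_lt₀ hp1)
        refine h3.congr fun n => ?_
        rw [zpow_neg, zpow_natCast, inv_pow]
      exact squeeze_zero (fun n => norm_nonneg _) (fun n => hs2 n φ) h2
    exact h1
  have hlim2 : Tendsto (fun n => embp K p (G D σ (tens s0)) *
      (embp K p (G D σ (tens (s n))))⁻¹) atTop (𝓝 (embp K p (G D σ (tens s0)))) := by
    have h1 := (tendsto_const_nhds (x := embp K p (G D σ (tens s0)))).mul hlim.inv
    rw [inv_one, mul_one] at h1
    exact h1
  refine mem_closure_of_tendsto hlim2 (Eventually.of_forall fun n => ?_)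
  refine ⟨G D σ (-Y n), ⟨-Y n, neg_mem (hYU n), rfl⟩, ?_⟩
  have e1 : G D σ (tens (s n)) = G D σ (tens s0) * G D σ (Y n) ^ p := by
    rw [hYe n, G_add, G_nsmul]
  change embp K p (G D σ (-Y n)) ^ p = _
  rw [G_neg, e1, ← map_pow, ← map_inv, ← map_mul]
  congr 1
  rw [inv_pow, mul_inv, mul_inv_cancel_left]

end Pool.Agent.W337.PCMEMCL
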